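import Pool.Agent.Lib.MP_9d2f5e_lc.Main

/-!
# MP_9d2f5e_lc: a language of a two-state iterative array which real-time Turing machines cannot guess

There is a language `L` over `{0,1}` which a one-dimensional iterative array with two states recognises
in real time, but no multitape Turing machine does; moreover every real-time multitape Turing machine
(even if its accepting states may depend on the length of the word) agrees with `L` on a proportion
`1/2 + o(1)` of the words of length `n`, for almost all `n`.
-/

set_option autoImplicit false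

open Filter Topology Finset

namespace Pool.Agent.Results.MP_9d2f5e_lc.NoAdvantage

/-! ### Iterative arrays -/

/-- A (deterministic, one-dimensional) iterative array over the input alphabet `{0,1}`: the cells
`0, 1, 2, ..` have the states `Fin (s + 1)`, `0` is the quiescent state.  `δ` gives the new state of a
cell `i ≥ 1` from the states of the cells `i - 1`, `i`, `i + 1`, `δ0` the new state of cell `0` from the
states of the cells `0`, `1` and the current input symbol (`none` is the end marker); `A` is the set of
accepting states of cell `0`. -/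
structure IterativeArray where
  s : ℕ
  δ0 : Fin (s + 1) → Fin (s + 1) → Option (Fin 2) → Fin (s + 1)
  δ : Fin (s + 1) → Fin (s + 1) → Fin (s + 1) → Fin (s + 1)
  A : Set (Fin (s + 1))
  quiescent : δ 0 0 0 = 0

/-- The states of the cells at time `t` for the input word `w`: all cells are quiescent at time `0`, and
step `t + 1` reads the symbol `w[t]?`, i.e. the `(t+1)`-st symbol of `w` or, after the word, the end
marker. -/
def IterativeArray.run (I : IterativeArray) (w : List (Fin 2)) : ℕ → ℕ → Fin (I.s + 1)
  | 0 => fun _ => 0
  | t + 1 => fun i =>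
      if i = 0 then I.δ0 (I.run w t 0) (I.run w t 1) (w[t]?)
      else I.δ (I.run w t (i - 1)) (I.run w t i) (I.run w t (i + 1))

/-- `I` recognises `L` in real time: for every word `w` of length `n` the state of cell `0` at time
`n + 1` is accepting exactly when `w ∈ L`. -/
def IterativeArray.Recognizes (I : IterativeArray) (L : Set (List (Fin 2))) : Prop :=
  ∀ w : List (Fin 2), w ∈ L ↔ I.run w (w.length + 1) 0 ∈ I.A

/-! ### Real-time Turing machines -/

/-- A (deterministic) real-time multitape Turing machine over the input alphabet `{0,1}`: `k`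
one-dimensional two-way infinite work tapes with tape symbols `Fin (g + 1)` (`0` is the blank), states
`Fin (q + 1)` (`0` is the initial state).  Every step reads one input symbol.  In state `p`, with input
symbol `a` and scanned tape symbols `u`, the new state is `δq p a u`, the scanned symbol of tape `j` is
replaced by `δw p a u j` and the head of tape `j` moves by `δm p a u j - 1`, i.e. by `-1`, `0` or `1`. -/
structure Machine where
  k : ℕ
  g : ℕ
  q : ℕ
  δq : Fin (q + 1) → Fin 2 → (Fin k → Fin (g + 1)) → Fin (q + 1)
  δw : Fin (q + 1) → Fin 2 → (Fin k → Fin (g + 1)) → Fin k → Fin (g + 1)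
  δm : Fin (q + 1) → Fin 2 → (Fin k → Fin (g + 1)) → Fin k → Fin 3

/-- Configurations: the state, the contents of the tapes and the positions of the heads. -/
structure Machine.Config (M : Machine) where
  state : Fin (M.q + 1)
  tape : Fin M.k → ℤ → Fin (M.g + 1)
  head : Fin M.k → ℤ

/-- One step with the input symbol `a`. -/
def Machine.step (M : Machine) (c : M.Config) (a : Fin 2) : M.Config where
  state := M.δq c.state a (fun j => c.tape j (c.head j))
  tape := fun j => Function.update (c.tape j) (c.head j)
    (M.δw c.state a (fun i => c.tape i (c.head i)) j)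
  head := fun j => c.head j + ((M.δm c.state a (fun i => c.tape i (c.head i)) j : ℕ) : ℤ) - 1

/-- The state after reading the word `w`, starting in the initial state on blank tapes. -/
def Machine.final (M : Machine) (w : List (Fin 2)) : Fin (M.q + 1) :=
  (w.foldl M.step ⟨0, fun _ _ => 0, fun _ => 0⟩).state

/-- `M` with the set `F` of accepting states recognises `L` (in real time). -/
def Machine.Recognizes (M : Machine) (F : Set (Fin (M.q + 1))) (L : Set (List (Fin 2))) : Prop :=
  ∀ w : List (Fin 2), w ∈ L ↔ M.final w ∈ F

open Classical in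
/-- The proportion of the words of length `n` on which `M`, with the set `F n` of accepting states for
words of length `n`, agrees with `L`. -/
noncomputable def Machine.agreement (M : Machine) (F : ℕ → Set (Fin (M.q + 1)))
    (L : Set (List (Fin 2))) (n : ℕ) : ℝ :=
  ((univ.filter fun w : Fin n → Fin 2 =>
    (M.final (List.ofFn w) ∈ F n ↔ List.ofFn w ∈ L)).card : ℝ) / 2 ^ n

/-! ### Connection with the library -/

open Pool.Agent.Lib.MP9d2f5e in
/-- The machine as a machine of the library. -/
def toTM (M : Machine) (F : ℕ → Set (Fin (M.q + 1))) : TM :=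
  ⟨M.k, M.g, M.q, M.δq, M.δw, M.δm, F⟩

open Pool.Agent.Lib.MP9d2f5e in
/-- The configuration as a configuration of the library. -/
def toConf {M : Machine} (F : ℕ → Set (Fin (M.q + 1))) (c : M.Config) : Conf (toTM M F) :=
  ⟨c.state, c.tape, c.head⟩

open Pool.Agent.Lib.MP9d2f5e in
theorem foldl_toConf {M : Machine} (F : ℕ → Set (Fin (M.q + 1))) (w : List (Fin 2))
    (c : M.Config) : toConf F (w.foldl M.step c) = w.foldl (Lib.MP9d2f5e.step (toTM M F)) (toConf F c) := by
  induction w generalizing c with
  | nil => rfl
  | cons a w ih => exact ih (M.step c a)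

open Pool.Agent.Lib.MP9d2f5e in
theorem acc_iff {M : Machine} (F : ℕ → Set (Fin (M.q + 1))) (w : List (Fin 2)) :
    Lib.MP9d2f5e.Acc (toTM M F) w ↔ M.final w ∈ F w.length := by
  have h := congrArg Conf.st (foldl_toConf F w ⟨0, fun _ _ => 0, fun _ => 0⟩)
  unfold Lib.MP9d2f5e.Acc Machine.final
  exact (iff_of_eq (congrArg (· ∈ F w.length) h)).symm

open Pool.Agent.Lib.MP9d2f5e in
theorem prop_eq {M : Machine} (F : ℕ → Set (Fin (M.q + 1))) (n : ℕ) :
    prop (toTM M F) n = M.agreement F Lang n := by
  unfold prop Machine.agreement
  rw [Finset.card_filter, Nat.cast_sum]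
  congr 1
  refine Finset.sum_congr rfl fun w _ => ?_
  have h := acc_iff F (List.ofFn w)
  rw [List.length_ofFn] at h
  by_cases h2 : (M.final (List.ofFn w) ∈ F n ↔ List.ofFn w ∈ Lang)
  · rw [if_pos h2, ind, if_pos (h.trans h2), Nat.cast_one]
  · rw [if_neg h2, ind, if_neg (fun h3 => h2 (h.symm.trans h3)), Nat.cast_zero]

/-- The two-state array in which every cell adds its neighbours mod 2. -/
def xorArray : IterativeArray where
  s := 1
  δ0 := fun _ r a => r + a.getD 0
  δ := fun l _ r => l + r
  A := {1}
  quiescent := rfl

open Pool.Agent.Lib.MP9d2f5e in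
theorem xor_run (w : List (Fin 2)) (t : ℕ) :
    (iaStep w)^[t] (0, fun _ => 0) = (t, xorArray.run w t) := by
  induction t with
  | zero => rfl
  | succ t ih => rw [Function.iterate_succ_apply', ih]; rfl

open Pool.Agent.Lib.MP9d2f5e in
theorem xor_recognizes : xorArray.Recognizes Lang := by
  intro w
  rw [← array_spec w]
  unfold iaAcc
  rw [xor_run]
  rfl

/-- The theorem. -/
theorem result :
    ∃ L : Set (List (Fin 2)),
      (∃ I : IterativeArray, I.s + 1 = 2 ∧ I.Recognizes L) ∧
      (¬ ∃ (M : Machine) (F : Set (Fin (M.q + 1))), M.Recognizes F L) ∧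
      ∀ (M : Machine) (F : ℕ → Set (Fin (M.q + 1))),
        Tendsto (fun N : ℕ => (∑ n ∈ range N, |M.agreement F L n - 1 / 2|) / N) atTop (𝓝 0) := by
  have key : ∀ (M : Machine) (F : ℕ → Set (Fin (M.q + 1))),
      Tendsto (fun N : ℕ => (∑ n ∈ range N,
        |M.agreement F Pool.Agent.Lib.MP9d2f5e.Lang n - 1 / 2|) / N) atTop (𝓝 0) := by
    intro M F
    have h := Pool.Agent.Lib.MP9d2f5e.main (toTM M F)
    simpa only [prop_eq] using h
  refine ⟨Pool.Agent.Lib.MP9d2f5e.Lang, ⟨xorArray, rfl, xor_recognizes⟩, ?_, key⟩
  rintro ⟨M, F, hM⟩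
  have h := key M (fun _ => F)
  have h1 : ∀ n : ℕ, M.agreement (fun _ => F) Pool.Agent.Lib.MP9d2f5e.Lang n = 1 := by
    intro n
    unfold Machine.agreement
    classical
    rw [Finset.filter_true_of_mem (fun w _ => (hM (List.ofFn w)).symm)]
    rw [Finset.card_univ, Fintype.card_fun, Fintype.card_fin, Fintype.card_fin]
    push_cast
    exact div_self (by positivity)
  simp only [h1] at h
  have h2 : Tendsto (fun N : ℕ => (∑ n ∈ range N, |(1 : ℝ) - 1 / 2|) / N) atTop (𝓝 (1 / 2)) := by
    apply tendsto_const_nhds.congr'
    filter_upwards [eventually_gt_atTop 0] with N hN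
    have hN' : (N : ℝ) ≠ 0 := by exact_mod_cast hN.ne'
    rw [Finset.sum_const, Finset.card_range, nsmul_eq_mul, mul_div_assoc, mul_div_assoc']
    rw [mul_div_assoc, mul_comm, div_mul_cancel₀ _ hN']
    norm_num [abs_of_pos]
  have h3 := tendsto_nhds_unique h h2
  norm_num at h3

end Pool.Agent.Results.MP_9d2f5e_lc.NoAdvantage
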